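import Pool.Agent.Helper50.VD.St

open MeasureTheory Set Filter Topology
open scoped ENNReal

noncomputable section

namespace VD.M_K1

theorem hasSum_cf {f f' : ℕ → ℝ} {a : ℝ} (h : HasSum f a)
    (e : ∀ k, f' k = f k) : HasSum f' a := by
  have : f' = f := funext e
  rw [this]
  exact h

/-- the series of the kernel -/
theorem hasSum_N (z y : ℝ × ℝ) (hz : 0 ≤ z.2) (hy : 0 < y.2) (hne : z ≠ y) :
    HasSum (fun k : ℕ => y.2 / Real.pi * ((2 * z.2 * y.2) ^ (2 * k) /
      ((2 * k + 1) * ((z.1 - y.1) ^ 2 + z.2 ^ 2 + y.2 ^ 2) ^ (2 * k + 1)))) (N z y) := by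
  set Q := (z.1 - y.1) ^ 2 + z.2 ^ 2 + y.2 ^ 2 with hQ
  have hQ0 : 0 < Q := by positivity
  have hpi := Real.pi_pos
  rcases eq_or_lt_of_le hz with h0 | h0
  · -- on the axis
    have hN : N z y = y.2 / Real.pi * (1 / Q) := by
      unfold N
      rw [if_pos h0.symm, hQ, ← h0]
      field_simp
      ring
    rw [hN]
    have : HasSum (fun k : ℕ => y.2 / Real.pi * ((2 * z.2 * y.2) ^ (2 * k) /
      ((2 * k + 1) * Q ^ (2 * k + 1)))) (y.2 / Real.pi * ((2 * z.2 * y.2) ^ (2 * 0) /
      ((2 * (0 : ℕ) + 1) * Q ^ (2 * 0 + 1)))) := by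
      apply hasSum_single
      intro k hk
      rw [← h0]
      have : (2 * (0 : ℝ) * y.2) ^ (2 * k) = 0 := by
        rw [mul_zero, zero_mul]
        exact zero_pow (by omega)
      rw [this]
      simp
    simpa using this
  · set x : ℝ := 2 * z.2 * y.2 / Q with hx
    have hx0 : 0 < x := by positivity
    have hM : 0 < (z.1 - y.1) ^ 2 + (z.2 - y.2) ^ 2 := by
      by_contra hc
      have h1 : z.1 - y.1 = 0 := by nlinarith [sq_nonneg (z.1 - y.1), sq_nonneg (z.2 - y.2)]
      have h2 : z.2 - y.2 = 0 := by nlinarith [sq_nonneg (z.1 - y.1), sq_nonneg (z.2 - y.2)]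
      exact hne (Prod.ext (by linarith) (by linarith))
    have hx1 : x < 1 := by
      rw [hx, div_lt_one hQ0, hQ]
      nlinarith
    have hs := Real.hasSum_log_sub_log_of_abs_lt_one (x := x) (by rw [abs_of_pos hx0]; exact hx1)
    have hN : N z y = (Real.log (1 + x) - Real.log (1 - x)) * (1 / (4 * Real.pi * z.2)) := by
      unfold N G
      rw [if_neg h0.ne', ← Real.log_div (by linarith) (by linarith)]
      have e1 : (z.1 - y.1) ^ 2 + (z.2 + y.2) ^ 2 = Q * (1 + x) := by
        rw [hx, hQ]; field_simp; ring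
      have e2 : (z.1 - y.1) ^ 2 + (z.2 - y.2) ^ 2 = Q * (1 - x) := by
        rw [hx, hQ]; field_simp; ring
      rw [e1, e2, mul_div_mul_left _ _ hQ0.ne']
      field_simp
    rw [hN]
    have hs' := hs.mul_right (1 / (4 * Real.pi * z.2))
    refine hasSum_cf hs' ?_
    intro k
    rw [hx, div_pow]
    have hk : (2 * (k : ℝ) + 1) ≠ 0 := by positivity
    have e3 : (2 * z.2 * y.2) ^ (2 * k + 1) = (2 * z.2 * y.2) ^ (2 * k) * (2 * z.2 * y.2) :=
      pow_succ _ _
    rw [e3]
    field_simp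
    ring

theorem log_le_div_sqrt (t : ℝ) (ht : 0 ≤ t) : Real.log (1 + t) ≤ t / Real.sqrt (1 + t) := by
  have h1 : 0 < 1 + t := by linarith
  set u := Real.log (1 + t) / 2 with hu
  have hu0 : 0 ≤ u := by
    rw [hu]
    have := Real.log_nonneg (show (1 : ℝ) ≤ 1 + t by linarith)
    linarith
  have h2 := Real.self_le_sinh_iff.2 hu0
  rw [Real.sinh_eq] at h2
  have e1 : Real.exp u = Real.sqrt (1 + t) := by
    rw [Real.sqrt_eq_rpow, Real.rpow_def_of_pos h1, hu]
    congr 1
    ring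
  have hs : 0 < Real.sqrt (1 + t) := Real.sqrt_pos.2 h1
  have e2 : Real.exp (-u) = 1 / Real.sqrt (1 + t) := by
    rw [Real.exp_neg, e1, one_div]
  rw [e1, e2] at h2
  have e3 : Real.sqrt (1 + t) - 1 / Real.sqrt (1 + t) = t / Real.sqrt (1 + t) := by
    rw [eq_div_iff hs.ne', sub_mul, Real.mul_self_sqrt h1.le]
    field_simp
    ring
  rw [e3] at h2
  have : Real.log (1 + t) = 2 * u := by rw [hu]; ring
  rw [this]
  linarith

end VD.M_K1

namespace VD

/-- pointwise bounds of the kernel N -/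
theorem mK1 : StK1 := by
  intro z y hz hy hne
  have hpi := Real.pi_pos
  have hS := M_K1.hasSum_N z y hz hy hne
  set Q := (z.1 - y.1) ^ 2 + z.2 ^ 2 + y.2 ^ 2 with hQ
  have hQ0 : 0 < Q := by positivity
  have hM : 0 < (z.1 - y.1) ^ 2 + (z.2 - y.2) ^ 2 := by
    by_contra hc
    have h1 : z.1 - y.1 = 0 := by nlinarith [sq_nonneg (z.1 - y.1), sq_nonneg (z.2 - y.2)]
    have h2 : z.2 - y.2 = 0 := by nlinarith [sq_nonneg (z.1 - y.1), sq_nonneg (z.2 - y.2)]
    exact hne (Prod.ext (by linarith) (by linarith))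
  have hnn : ∀ k : ℕ, 0 ≤ y.2 / Real.pi * ((2 * z.2 * y.2) ^ (2 * k) /
      ((2 * k + 1) * Q ^ (2 * k + 1))) := by
    intro k
    positivity
  have h5 : y.2 / Real.pi * (1 / Q + (2 * z.2 * y.2) ^ 2 / (3 * Q ^ 3)) ≤ N z y := by
    have := sum_le_hasSum (Finset.range 2) (fun k _ => hnn k) hS
    rw [Finset.sum_range_succ, Finset.sum_range_one] at this
    refine le_trans (le_of_eq ?_) this
    norm_num
    ring
  have h1 : 0 < N z y := by
    refine lt_of_lt_of_le ?_ h5
    have : 0 < 1 / Q := by positivity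
    have h' : 0 ≤ (2 * z.2 * y.2) ^ 2 / (3 * Q ^ 3) := by positivity
    have : 0 < 1 / Q + (2 * z.2 * y.2) ^ 2 / (3 * Q ^ 3) := by linarith
    positivity
  rcases eq_or_lt_of_le hz with h0 | h0
  · -- on the axis
    have hN : N z y = y.2 / (Real.pi * ((z.1 - y.1) ^ 2 + y.2 ^ 2)) := by
      unfold N
      rw [if_pos h0.symm]
    have hR : 0 < (z.1 - y.1) ^ 2 + y.2 ^ 2 := by positivity
    have e1 : (z.2 - y.2) ^ 2 = y.2 ^ 2 := by rw [← h0]; ring
    have e2 : (z.2 + y.2) ^ 2 = y.2 ^ 2 := by rw [← h0]; ring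
    refine ⟨h1, ?_, ?_, ?_, h5⟩
    · rw [hN, e1, div_le_div_iff₀ (by positivity) (by positivity)]
      have hs : y.2 ≤ Real.sqrt ((z.1 - y.1) ^ 2 + y.2 ^ 2) := by
        apply Real.le_sqrt_of_sq_le
        nlinarith [sq_nonneg (z.1 - y.1)]
      have hs2 := Real.mul_self_sqrt hR.le
      set w := Real.sqrt ((z.1 - y.1) ^ 2 + y.2 ^ 2) with hw
      rw [← hs2]
      have hw0 : 0 ≤ w := Real.sqrt_nonneg _
      have : y.2 * w ≤ w * w := mul_le_mul_of_nonneg_right hs hw0
      nlinarith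
    · rw [hN, e1]
    · rw [hN, e2]
  · have hP : 0 < (z.1 - y.1) ^ 2 + (z.2 + y.2) ^ 2 := by positivity
    set P := (z.1 - y.1) ^ 2 + (z.2 + y.2) ^ 2 with hPdef
    set M := (z.1 - y.1) ^ 2 + (z.2 - y.2) ^ 2 with hMdef
    have hPM : P = M + 4 * z.2 * y.2 := by rw [hPdef, hMdef]; ring
    have hN : N z y = Real.log (P / M) / (4 * Real.pi) / z.2 := by
      unfold N G
      rw [if_neg h0.ne']
    have hPM1 : P / M = 1 + 4 * z.2 * y.2 / M := by
      rw [hPM]; field_simp
    have ht : 0 ≤ 4 * z.2 * y.2 / M := by positivity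
    refine ⟨h1, ?_, ?_, ?_, h5⟩
    · have hl := M_K1.log_le_div_sqrt _ ht
      rw [← hPM1] at hl
      have hsM : 0 < Real.sqrt M := Real.sqrt_pos.2 hM
      have hsP : 0 < Real.sqrt P := Real.sqrt_pos.2 hP
      have hyP : y.2 ≤ Real.sqrt P := by
        apply Real.le_sqrt_of_sq_le
        rw [hPdef]
        nlinarith [sq_nonneg (z.1 - y.1)]
      have e1 : Real.sqrt (P / M) = Real.sqrt P / Real.sqrt M := Real.sqrt_div hP.le M
      have hb : Real.log (P / M) ≤ 4 * z.2 / Real.sqrt M := by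
        refine hl.trans ?_
        rw [e1, div_div_eq_mul_div, div_mul_eq_mul_div, div_div, div_le_div_iff₀ (by positivity)
          hsM]
        have hMM := Real.mul_self_sqrt hM.le
        calc 4 * z.2 * y.2 * Real.sqrt M * Real.sqrt M
            = 4 * z.2 * y.2 * (Real.sqrt M * Real.sqrt M) := by ring
          _ = 4 * z.2 * (M * y.2) := by rw [hMM]; ring
          _ ≤ 4 * z.2 * (M * Real.sqrt P) := by gcongr
      rw [hN, div_div, div_le_div_iff₀ (by positivity) (by positivity), one_mul]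
      rw [le_div_iff₀ hsM] at hb
      nlinarith
    · have hl : Real.log (P / M) ≤ 4 * z.2 * y.2 / M := by
        rw [hPM1]
        have := Real.log_le_sub_one_of_pos (show 0 < 1 + 4 * z.2 * y.2 / M by positivity)
        linarith
      rw [hN, div_div, div_le_div_iff₀ (by positivity) (by positivity)]
      rw [le_div_iff₀ hM] at hl
      nlinarith
    · have hl : 4 * z.2 * y.2 / P ≤ Real.log (P / M) := by
        have := Real.one_sub_inv_le_log_of_pos (show 0 < P / M by positivity)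
        have e : 1 - (P / M)⁻¹ = 4 * z.2 * y.2 / P := by
          rw [inv_div, hPM]
          field_simp
          ring
        linarith
      rw [hN, div_div, div_le_div_iff₀ (by positivity) (by positivity)]
      rw [div_le_iff₀ hP] at hl
      nlinarith

end VD
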