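import Pool.Agent.Helper75.VD.M_K1

open MeasureTheory Set Filter Topology
open scoped ENNReal

noncomputable section

namespace VD

/-- comparison of two poles -/
theorem mK1b : StK1b := by
  intro z w y hz hzw hy hw hle
  have hpi := Real.pi_pos
  have hw0 : 0 ≤ w.2 := hz.trans hzw
  by_cases hzy : z = y
  · have h1 := (mK1 w y hw0 hy hw).1
    have : N z y = 0 := by
      subst hzy
      unfold N G
      rw [if_neg hy.ne']
      simp
    rw [this]
    exact h1.le
  · refine hasSum_le (fun k => ?_) (M_K1.hasSum_N z y hz hy hzy) (M_K1.hasSum_N w y hw0 hy hw)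
    have hQw : 0 < (w.1 - y.1) ^ 2 + w.2 ^ 2 + y.2 ^ 2 := by positivity
    have hQ : (w.1 - y.1) ^ 2 + w.2 ^ 2 + y.2 ^ 2 ≤ (z.1 - y.1) ^ 2 + z.2 ^ 2 + y.2 ^ 2 := by
      linarith
    apply mul_le_mul_of_nonneg_left _ (by positivity)
    apply div_le_div₀
    · positivity
    · exact pow_le_pow_left₀ (by positivity) (by nlinarith) _
    · positivity
    · exact mul_le_mul_of_nonneg_left (pow_le_pow_left₀ hQw.le hQ _) (by positivity)

end VD
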