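import Pool.Agent.Helper50.VD.St

open MeasureTheory Set Filter Topology
open scoped ENNReal

noncomputable section

namespace VD

/-- integral representation of N -/
theorem mK1c : StK1c := by
  intro S s ξ hS hs hne
  have hpi := Real.pi_pos
  have hab : |s - S| ≤ s + S := abs_le.2 ⟨by linarith, by linarith⟩
  have hpos : ∀ r ∈ uIcc |s - S| (s + S), 0 < ξ ^ 2 + r ^ 2 := by
    intro r hr
    rw [uIcc_of_le hab] at hr
    rcases hne with h | h
    · have : 0 < ξ ^ 2 := by positivity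
      positivity
    · have h1 : 0 < |s - S| := abs_pos.2 (sub_ne_zero.2 h)
      have h2 : 0 < r := lt_of_lt_of_le h1 hr.1
      positivity
  have hI : ∫ r in (|s - S|)..(s + S), r / (ξ ^ 2 + r ^ 2) =
      Real.log (ξ ^ 2 + (s + S) ^ 2) / 2 - Real.log (ξ ^ 2 + |s - S| ^ 2) / 2 := by
    have hF : ∀ r ∈ uIcc |s - S| (s + S), HasDerivAt
        (fun r : ℝ => Real.log (ξ ^ 2 + r ^ 2) / 2) (r / (ξ ^ 2 + r ^ 2)) r := by
      intro r hr
      have h := hpos r hr
      have h1 : HasDerivAt (fun r : ℝ => ξ ^ 2 + r ^ 2) (2 * r) r := by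
        simpa using ((hasDerivAt_pow 2 r).const_add (ξ ^ 2))
      have h2 := (h1.log h.ne').div_const 2
      refine h2.congr_deriv ?_
      field_simp
    have hC : IntervalIntegrable (fun r : ℝ => r / (ξ ^ 2 + r ^ 2)) volume |s - S| (s + S) := by
      apply ContinuousOn.intervalIntegrable
      apply ContinuousOn.div continuousOn_id (by fun_prop)
      intro r hr
      exact (hpos r hr).ne'
    exact intervalIntegral.integral_eq_sub_of_hasDerivAt
      (f := fun r : ℝ => Real.log (ξ ^ 2 + r ^ 2) / 2) hF hC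
  rw [hI]
  unfold N G
  rw [if_neg (show ¬ ((0, S) : ℝ × ℝ).2 = 0 from hS.ne')]
  simp only
  rw [sq_abs]
  have hs1 := hpos |s - S| (left_mem_uIcc)
  have hs2 := hpos (s + S) (right_mem_uIcc)
  rw [sq_abs] at hs1
  have e1 : (0 - ξ) ^ 2 + (S + s) ^ 2 = ξ ^ 2 + (s + S) ^ 2 := by ring
  have e2 : (0 - ξ) ^ 2 + (S - s) ^ 2 = ξ ^ 2 + (s - S) ^ 2 := by ring
  rw [e1, e2, Real.log_div hs2.ne' hs1.ne']
  field_simp
  ring

end VD
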