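import Pool.Agent.Helper50.VD.St

open MeasureTheory Set Filter Topology
open scoped ENNReal

noncomputable section

namespace VD.M_K6

/-- strict decrease of the kernel in the horizontal distance -/
theorem N_lt (x x' s : ℝ) (y : ℝ × ℝ) (hs : 0 ≤ s) (hy : 0 < y.2) (hne : ((x, s) : ℝ × ℝ) ≠ y)
    (h : (x - y.1) ^ 2 < (x' - y.1) ^ 2) : N (x', s) y < N (x, s) y := by
  have hpi := Real.pi_pos
  rcases eq_or_lt_of_le hs with h0 | h0
  · have e1 : N (x', s) y = y.2 / (Real.pi * ((x' - y.1) ^ 2 + y.2 ^ 2)) := by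
      unfold N; rw [if_pos h0.symm]
    have e2 : N (x, s) y = y.2 / (Real.pi * ((x - y.1) ^ 2 + y.2 ^ 2)) := by
      unfold N; rw [if_pos h0.symm]
    rw [e1, e2]
    apply div_lt_div_of_pos_left hy (by positivity)
    apply mul_lt_mul_of_pos_left _ hpi
    linarith
  · have hM : 0 < (x - y.1) ^ 2 + (s - y.2) ^ 2 := by
      by_contra hc
      have h1 : x - y.1 = 0 := by nlinarith [sq_nonneg (x - y.1), sq_nonneg (s - y.2)]
      have h2 : s - y.2 = 0 := by nlinarith [sq_nonneg (x - y.1), sq_nonneg (s - y.2)]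
      exact hne (Prod.ext (by simpa using (sub_eq_zero.1 h1)) (by simpa using (sub_eq_zero.1 h2)))
    have hM' : 0 < (x' - y.1) ^ 2 + (s - y.2) ^ 2 := by linarith
    have e1 : N (x', s) y = Real.log (((x' - y.1) ^ 2 + (s + y.2) ^ 2) /
        ((x' - y.1) ^ 2 + (s - y.2) ^ 2)) / (4 * Real.pi) / s := by
      unfold N G; rw [if_neg h0.ne']
    have e2 : N (x, s) y = Real.log (((x - y.1) ^ 2 + (s + y.2) ^ 2) /
        ((x - y.1) ^ 2 + (s - y.2) ^ 2)) / (4 * Real.pi) / s := by
      unfold N G; rw [if_neg h0.ne']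
    rw [e1, e2]
    apply div_lt_div_of_pos_right _ h0
    apply div_lt_div_of_pos_right _ (by positivity)
    apply Real.log_lt_log (by positivity)
    rw [div_lt_div_iff₀ hM' hM]
    have : 0 < s * y.2 := by positivity
    nlinarith

/-- a part of a doubly monotone set whose mirror image is outside -/
theorem vol_diff {A : Set (ℝ × ℝ)} (hA : DM A) (hv : 0 < volume A) (m : ℝ) (hm : 0 < m) :
    0 < volume (A \ rfl' m ⁻¹' A) := by
  obtain ⟨R, hR⟩ := hA.bdd
  have hex : ∃ z ∈ A, z.1 ≠ 0 := by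
    by_contra hc
    push Not at hc
    have : A ⊆ ({0} : Set ℝ) ×ˢ (univ : Set ℝ) := fun z hz => ⟨hc z hz, mem_univ _⟩
    have h0 : volume (({0} : Set ℝ) ×ˢ (univ : Set ℝ)) = 0 := by
      rw [Measure.volume_eq_prod, Measure.prod_prod]
      simp
    exact hv.ne' (measure_mono_null this h0)
  obtain ⟨z0, hz0, hz01⟩ := hex
  set S : Set ℝ := (fun z : ℝ × ℝ => |z.1|) '' A with hS
  have hSb : BddAbove S := ⟨R, by rintro _ ⟨z, hz, rfl⟩; exact (hR hz).1⟩
  have hSn : S.Nonempty := ⟨_, z0, hz0, rfl⟩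
  have hL : |z0.1| ≤ sSup S := le_csSup hSb ⟨z0, hz0, rfl⟩
  have hL0 : 0 < sSup S := lt_of_lt_of_le (abs_pos.2 hz01) hL
  obtain ⟨_, ⟨z, hz, rfl⟩, hzc⟩ := exists_lt_of_lt_csSup hSn
    (show max (sSup S - m) 0 < sSup S from max_lt (by linarith) hL0)
  set c := max (sSup S - m) 0 with hc
  have hc0 : 0 ≤ c := le_max_right _ _
  have hcm : sSup S - m ≤ c := le_max_left _ _
  simp only at hzc
  have hz2 : 0 < z.2 := hA.sub hz
  have hsub : Ioo (-|z.1|) (-c) ×ˢ Ioc 0 z.2 ⊆ A \ rfl' m ⁻¹' A := by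
    rintro y ⟨⟨h1, h2⟩, h3, h4⟩
    refine ⟨hA.mono z hz y h3 ?_ h4, ?_⟩
    · rw [abs_of_nonpos (by linarith)]
      linarith
    · intro h5
      have h6 : |(rfl' m y).1| ≤ sSup S := le_csSup hSb ⟨_, h5, rfl⟩
      have h7 : (rfl' m y).1 = 2 * m - y.1 := rfl
      rw [h7] at h6
      have := le_abs_self (2 * m - y.1)
      linarith
  refine lt_of_lt_of_le ?_ (measure_mono hsub)
  rw [Measure.volume_eq_prod, Measure.prod_prod, Real.volume_Ioo, Real.volume_Ioc]
  apply ENNReal.mul_pos
  · simp only [ne_eq, ENNReal.ofReal_eq_zero, not_le]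
    linarith
  · simp only [ne_eq, ENNReal.ofReal_eq_zero, not_le]
    linarith

end VD.M_K6

namespace VD

/-- phi of a DM set decreases in |x1| -/
theorem mK6 (hK2 : StK2) (hK5 : StK5) : StK6 := by
  intro A hA hv
  obtain ⟨_, _, hr⟩ := hK5
  have hAm := hA.meas
  have hvA := hA.vol
  have heven : ∀ x s : ℝ, phi A (-x, s) = phi A (x, s) := by
    intro x s
    have h1 := (hr A 0 hAm hA.sub).1 (x, s)
    have h2 : rfl' 0 ⁻¹' A = A := by
      ext z
      simp only [mem_preimage, rfl']
      constructor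
      · intro h
        have := hA.symm h
        simpa using this
      · intro h
        have := hA.symm h
        simpa using this
    rw [h2] at h1
    rw [h1]
    simp [rfl']
  have key : ∀ x x' s : ℝ, 0 ≤ s → 0 ≤ x → x < x' → phi A (x', s) < phi A (x, s) := by
    intro x x' s hs hx hxx
    set m := (x + x') / 2 with hm
    have hm0 : 0 < m := by rw [hm]; linarith
    set A' := rfl' m ⁻¹' A with hA'
    have hcm : Measurable (rfl' m) := by
      unfold rfl'
      fun_prop
    have hA'm : MeasurableSet A' := hcm hAm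
    have hA's : A' ⊆ Om := fun z hz => by
      have : 0 < (rfl' m z).2 := hA.sub hz
      exact this
    have hvA' : volume A' < ∞ := by
      rw [(hr A m hAm hA.sub).2.2.1]
      exact hvA
    have hz' : rfl' m (x, s) = (x', s) := by
      simp only [rfl', hm]
      congr 1
      ring
    -- the reflected set
    have h1 : phi A (x', s) = phi A' (x, s) := by
      rw [(hr A m hAm hA.sub).1 (x, s), hz']
    have hD : MeasurableSet (A \ A') := hAm.diff hA'm
    have hDs : A \ A' ⊆ Om := diff_subset.trans hA.sub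
    have hinv : ∀ z, rfl' m (rfl' m z) = z := by
      intro z
      simp [rfl']
    have hD' : rfl' m ⁻¹' (A \ A') = A' \ A := by
      ext z
      simp only [mem_preimage, mem_diff, hA', hinv]
    have h2 : phi (A \ A') (x', s) = phi (A' \ A) (x, s) := by
      have := (hr (A \ A') m hD hDs).1 (x, s)
      rw [hD', hz'] at this
      exact this.symm
    have hvD : volume (A \ A') < ∞ := lt_of_le_of_lt (measure_mono diff_subset) hvA
    obtain ⟨i1, -⟩ := hK2 A hAm hA.sub hvA (x, s) hs
    obtain ⟨i2, -⟩ := hK2 A' hA'm hA's hvA' (x, s) hs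
    obtain ⟨i3, -⟩ := hK2 (A \ A') hD hDs hvD (x', s) hs
    have s1 : phi A (x, s) = phi (A ∩ A') (x, s) + phi (A \ A') (x, s) := by
      unfold phi
      rw [← integral_inter_add_diff hA'm i1]
    have s2 : phi A' (x, s) = phi (A ∩ A') (x, s) + phi (A' \ A) (x, s) := by
      unfold phi
      rw [← integral_inter_add_diff hAm i2, inter_comm]
    have i4 : IntegrableOn (N (x, s)) (A \ A') := i1.mono_set diff_subset
    have s3 : phi (A \ A') (x, s) - phi (A \ A') (x', s) =
        ∫ y in A \ A', (N (x, s) y - N (x', s) y) := by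
      unfold phi
      rw [integral_sub i4 i3]
    have hpt : ∀ y ∈ A \ A', ((x, s) : ℝ × ℝ) ≠ y → 0 < N (x, s) y - N (x', s) y := by
      rintro y ⟨hy, hy'⟩ hne
      have hy2 : 0 < y.2 := hA.sub hy
      have h5 : ¬ |2 * m - y.1| ≤ |y.1| := fun h => hy' (hA.mono y hy (rfl' m y) hy2 h le_rfl)
      rw [not_le] at h5
      have h6 : y.1 ^ 2 < (2 * m - y.1) ^ 2 := sq_lt_sq.2 h5
      have h7 : y.1 < m := by
        by_contra hcc
        rw [not_lt] at hcc
        nlinarith
      have h8 : (x - y.1) ^ 2 < (x' - y.1) ^ 2 := by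
        rw [hm] at h7
        nlinarith
      have := M_K6.N_lt x x' s y hs hy2 hne h8
      linarith
    have hvp := M_K6.vol_diff hA hv m hm0
    have hpos : 0 < ∫ y in A \ A', (N (x, s) y - N (x', s) y) := by
      have i5 : IntegrableOn (fun y => N (x, s) y - N (x', s) y) (A \ A') := i4.sub i3
      rw [setIntegral_pos_iff_support_of_nonneg_ae _ i5]
      · have hsub : (A \ A') \ {((x, s) : ℝ × ℝ)} ⊆
            Function.support (fun y => N (x, s) y - N (x', s) y) ∩ (A \ A') := by
          rintro y ⟨hy, hne⟩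
          refine ⟨?_, hy⟩
          exact (hpt y hy (fun h => hne h.symm)).ne'
        refine lt_of_lt_of_le ?_ (measure_mono hsub)
        rw [measure_diff_null (measure_singleton _)]
        exact hvp
      · rw [Filter.EventuallyLE, ae_restrict_iff' hD]
        have : ∀ᵐ y : ℝ × ℝ, y ≠ (x, s) := by
          rw [ae_iff]
          simp
        filter_upwards [this] with y hy hyD
        exact (hpt y hyD (fun h => hy h.symm)).le
    rw [h1, s1, s2]
    rw [← s3] at hpos
    rw [← h2]
    linarith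
  intro x x' s hs hxx
  have e1 : phi A (x, s) = phi A (|x|, s) := by
    rcases abs_cases x with ⟨h, -⟩ | ⟨h, -⟩
    · rw [h]
    · rw [h, heven]
  have e2 : phi A (x', s) = phi A (|x'|, s) := by
    rcases abs_cases x' with ⟨h, -⟩ | ⟨h, -⟩
    · rw [h]
    · rw [h, heven]
  rw [e1, e2]
  exact key _ _ s hs (abs_nonneg _) hxx

end VD
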