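import Pool.Agent.Helper50.VD.St

open MeasureTheory Set Filter Topology
open scoped ENNReal

noncomputable section

namespace VD.M_K7

theorem e0_zero : e0 0 = 1 := by
  simp [e0]

theorem norm_e0 : ‖e0‖ = 1 := by
  simp [e0]

theorem norm_sq (v : E3) : ‖v‖ ^ 2 = v 0 ^ 2 + v 1 ^ 2 + v 2 ^ 2 := by
  rw [EuclideanSpace.norm_sq_eq, Fin.sum_univ_three]
  simp

theorem norm_rf (l : ℝ) (X : ℝ × E3) :
    ‖(rf l X).2‖ ^ 2 = (2 * l - X.2 0) ^ 2 + X.2 1 ^ 2 + X.2 2 ^ 2 := by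
  rw [norm_sq]
  simp [rf, e0]
  ring

theorem Dset_sub {A : Set (ℝ × ℝ)} (hA : DM A) (l : ℝ) (hl : 0 < l) :
    Dset A l ⊆ univ ×ˢ {(2 * l) • e0} := by
  rintro X ⟨h1, h2, h3⟩
  refine ⟨mem_univ _, ?_⟩
  by_contra hc
  apply h3
  have h4 : (rf l X).2 ≠ 0 := by
    intro h0
    apply hc
    have h5 := norm_rf l X
    rw [h0, norm_zero] at h5
    have h50 : X.2 0 = 2 * l := by nlinarith [sq_nonneg (2 * l - X.2 0), sq_nonneg (X.2 1), sq_nonneg (X.2 2)]
    have h51 : X.2 1 = 0 := by nlinarith [sq_nonneg (2 * l - X.2 0), sq_nonneg (X.2 1), sq_nonneg (X.2 2)]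
    have h52 : X.2 2 = 0 := by nlinarith [sq_nonneg (2 * l - X.2 0), sq_nonneg (X.2 1), sq_nonneg (X.2 2)]
    show X.2 = (2 * l) • e0
    ext i
    fin_cases i
    · simp [e0, h50]
    · simp [e0, h51]
    · simp [e0, h52]
  have h5 : ‖(rf l X).2‖ ≤ ‖X.2‖ := by
    apply le_of_sq_le_sq _ (norm_nonneg _)
    rw [norm_rf, norm_sq]
    nlinarith
  exact hA.mono _ h2 (rad (rf l X)) (norm_pos_iff.2 h4) (le_refl _) h5

end VD.M_K7

namespace VD

/-- phi of a DM set decreases in x2 (from M5) -/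
theorem mK7 (hM5 : StM5) : StK7 := by
  intro A hA hv x s t hs hst
  obtain ⟨n, hn⟩ := hA.bdd
  have hl : 0 < (s + t) / 2 := by linarith
  have hD : volume (Dset A ((s + t) / 2)) = 0 := by
    apply measure_mono_null (M_K7.Dset_sub hA _ hl)
    rw [Measure.volume_eq_prod, Measure.prod_prod]
    simp
  have h := hM5 A n ((s + t) / 2) hA.meas hn hv hl hD (x, t • e0) (by
    simp only [PiLp.smul_apply, M_K7.e0_zero, smul_eq_mul, mul_one]
    linarith)
  have e1 : rad (x, t • e0) = (x, t) := by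
    simp only [rad, norm_smul, M_K7.norm_e0, mul_one, Real.norm_eq_abs]
    rw [abs_of_nonneg (by linarith)]
  have e2 : rad (rf ((s + t) / 2) (x, t • e0)) = (x, s) := by
    have : t • e0 + (2 * ((s + t) / 2 - (t • e0) 0)) • e0 = s • e0 := by
      rw [← add_smul]
      congr 1
      simp only [PiLp.smul_apply, M_K7.e0_zero, smul_eq_mul, mul_one]
      ring
    simp only [rad, rf]
    rw [this, norm_smul, M_K7.norm_e0, mul_one, Real.norm_eq_abs, abs_of_nonneg hs]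
  rw [e1, e2] at h
  exact h

end VD
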