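import Pool.Agent.Helper50.VD.St

open MeasureTheory Set Filter Topology
open scoped ENNReal

noncomputable section

namespace VD.M_W1

theorem fF_eq (n x M m : ℝ) (hn : x ^ 2 ≤ n) (hm : m ^ 2 < M) :
    fF n x M m = 2 * (n + M) / ((n + M) ^ 2 - 4 * (x ^ 2 * m ^ 2)) := by
  have h1 : 0 < n + M - 2 * x * m := by nlinarith [sq_nonneg (x - m)]
  have h2 : 0 < n + M + 2 * x * m := by nlinarith [sq_nonneg (x + m)]
  unfold fF
  have h3 : (n + M) ^ 2 - 4 * (x ^ 2 * m ^ 2) = (n + M - 2 * x * m) * (n + M + 2 * x * m) := by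
    ring
  rw [h3]
  field_simp
  ring

theorem den_pos (n x M m : ℝ) (hn : x ^ 2 ≤ n) (hm : m ^ 2 < M) :
    0 < (n + M) ^ 2 - 4 * (x ^ 2 * m ^ 2) := by
  have h1 : 0 < n + M - 2 * x * m := by nlinarith [sq_nonneg (x - m)]
  have h2 : 0 < n + M + 2 * x * m := by nlinarith [sq_nonneg (x + m)]
  have h3 : (n + M) ^ 2 - 4 * (x ^ 2 * m ^ 2) = (n + M - 2 * x * m) * (n + M + 2 * x * m) := by
    ring
  rw [h3]
  positivity

/-- the reciprocal -/
theorem inv_fF (n x M m : ℝ) (hn : x ^ 2 ≤ n) (hm : m ^ 2 < M) :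
    0 < fF n x M m ∧ 1 / fF n x M m = (n + M) / 2 - 2 * m ^ 2 * (x ^ 2 / (n + M)) := by
  have h0 := den_pos n x M m hn hm
  have hN : 0 < n + M := by nlinarith [sq_nonneg x, sq_nonneg m]
  rw [fF_eq n x M m hn hm]
  refine ⟨by positivity, ?_⟩
  field_simp
  ring

end VD.M_W1

namespace VD

/-- arc lemma: a two variable convexity inequality -/
theorem mW1 : StW1 := by
  intro n0 x0 n1 x1 n x M m hx0 hx0x hxx1 hx01 hm hmM hn0 hn1 hn01 hd hn hch
  -- abscissae
  set w0 := x0 ^ 2 with hw0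
  set w1 := x1 ^ 2 with hw1
  set w := x ^ 2 with hw
  have hw0' : 0 ≤ w0 := sq_nonneg _
  have hww0 : w0 ≤ w := pow_le_pow_left₀ hx0 hx0x 2
  have hww1 : w ≤ w1 := pow_le_pow_left₀ (hx0.trans hx0x) hxx1 2
  have hw01 : w0 < w1 := pow_lt_pow_left₀ hx01 hx0 (by norm_num)
  have hM : 0 < M := lt_of_le_of_lt (sq_nonneg m) hmM
  -- the chord
  set lam := (w - w0) / (w1 - w0) with hlam
  have hd0 : 0 < w1 - w0 := by linarith
  have hl0 : 0 ≤ lam := div_nonneg (by linarith) hd0.le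
  have hl1 : lam ≤ 1 := by rw [hlam, div_le_one hd0]; linarith
  have hwl : w = (1 - lam) * w0 + lam * w1 := by
    rw [hlam]; field_simp; ring
  set N0 := n0 + M with hN0
  set N1 := n1 + M with hN1
  set Nb := (1 - lam) * N0 + lam * N1 with hNb
  have hN0p : 0 < N0 := by linarith
  have hN1p : 0 < N1 := by linarith
  have hNbp : 0 < Nb := by
    have h1 : N0 ≤ Nb := by
      rw [hNb]
      have : N0 ≤ N1 := by linarith
      nlinarith
    linarith
  have hnNb : n + M ≤ Nb := by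
    have h1 : n * (w1 - w0) ≤ (Nb - M) * (w1 - w0) := by
      have e : (Nb - M) * (w1 - w0) = n0 * (w1 - w) + n1 * (w - w0) := by
        rw [hNb, hN0, hN1, hlam]; field_simp; ring
      rw [e]
      exact hch
    have := le_of_mul_le_mul_right h1 hd0
    linarith
  have hnp : 0 < n + M := by linarith [sq_nonneg x]
  obtain ⟨f0, i0⟩ := M_W1.inv_fF n0 x0 M m hn0 hmM
  obtain ⟨f1, i1⟩ := M_W1.inv_fF n1 x1 M m hn1 hmM
  obtain ⟨f, i⟩ := M_W1.inv_fF n x M m hn hmM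
  rw [← hw0, ← hN0] at i0
  rw [← hw1, ← hN1] at i1
  rw [← hw] at i
  -- monotone in `n`
  have s1 : (n + M) / 2 - 2 * m ^ 2 * (w / (n + M)) ≤ Nb / 2 - 2 * m ^ 2 * (w / Nb) := by
    have hw' : 0 ≤ w := sq_nonneg _
    have h1 : w / Nb ≤ w / (n + M) := div_le_div_of_nonneg_left hw' hnp hnNb
    have h2 : 2 * m ^ 2 * (w / Nb) ≤ 2 * m ^ 2 * (w / (n + M)) :=
      mul_le_mul_of_nonneg_left h1 (by positivity)
    linarith
  -- concavity of `w / N`
  have s2 : (1 - lam) * (w0 / N0) + lam * (w1 / N1) ≤ w / Nb := by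
    have e : w / Nb - ((1 - lam) * (w0 / N0) + lam * (w1 / N1)) =
        lam * (1 - lam) * (N1 - N0) * (w1 * N0 - w0 * N1) / (Nb * N0 * N1) := by
      rw [hwl]
      field_simp
      rw [hNb]
      ring
    have h1 : 0 ≤ w1 * N0 - w0 * N1 := by
      rw [hN0, hN1]
      nlinarith
    have h2 : 0 ≤ N1 - N0 := by linarith
    have h3 : 0 ≤ 1 - lam := by linarith
    have h4 : 0 ≤ lam * (1 - lam) * (N1 - N0) * (w1 * N0 - w0 * N1) / (Nb * N0 * N1) := by
      positivity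
    linarith
  have s3 : 1 / fF n x M m ≤ (1 - lam) * (1 / fF n0 x0 M m) + lam * (1 / fF n1 x1 M m) := by
    rw [i0, i1, i]
    have h1 : 2 * m ^ 2 * ((1 - lam) * (w0 / N0) + lam * (w1 / N1)) ≤ 2 * m ^ 2 * (w / Nb) :=
      mul_le_mul_of_nonneg_left s2 (by positivity)
    have e : (1 - lam) * (N0 / 2 - 2 * m ^ 2 * (w0 / N0)) +
        lam * (N1 / 2 - 2 * m ^ 2 * (w1 / N1)) =
        Nb / 2 - 2 * m ^ 2 * ((1 - lam) * (w0 / N0) + lam * (w1 / N1)) := by
      rw [hNb]; ring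
    rw [e]
    linarith
  have s4 : 1 / fF n x M m ≤ max (1 / fF n0 x0 M m) (1 / fF n1 x1 M m) := by
    have h1 := le_max_left (1 / fF n0 x0 M m) (1 / fF n1 x1 M m)
    have h2 := le_max_right (1 / fF n0 x0 M m) (1 / fF n1 x1 M m)
    have h3 : 0 ≤ 1 - lam := by linarith
    nlinarith
  rcases le_max_iff.1 s4 with h | h
  · exact (min_le_left _ _).trans ((one_div_le_one_div f f0).1 h)
  · exact (min_le_right _ _).trans ((one_div_le_one_div f f1).1 h)

end VD
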