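import Pool.Agent.Helper50.VD.St

open MeasureTheory Set Filter Topology
open scoped ENNReal

noncomputable section

namespace VD

/-- Jensen for 1/V on an interval -/
theorem mW2 : StW2 := by
  intro n x a b hab hxn
  have hV : ∀ y : ℝ, 0 < n - 2 * x * y + y ^ 2 := by
    intro y
    nlinarith [sq_nonneg (y - x)]
  set μ : ℝ := n - x * (a + b) + (a ^ 2 + a * b + b ^ 2) / 3 with hμ
  have hμ0 : 0 < μ := by
    rw [hμ]
    nlinarith [sq_nonneg (x - (a + b) / 2), sq_nonneg (a - b)]
  have e0 : 3 * (b - a) / (3 * n - 3 * x * (a + b) + (a ^ 2 + a * b + b ^ 2)) = (b - a) / μ := by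
    have : 3 * n - 3 * x * (a + b) + (a ^ 2 + a * b + b ^ 2) = 3 * μ := by rw [hμ]; ring
    rw [this, mul_div_mul_left _ _ (by norm_num)]
  rw [e0]
  have hle : ∀ y : ℝ, 2 / μ - (n - 2 * x * y + y ^ 2) / μ ^ 2 ≤ 1 / (n - 2 * x * y + y ^ 2) := by
    intro y
    have h := hV y
    set V := n - 2 * x * y + y ^ 2 with hVdef
    have : 1 / V - (2 / μ - V / μ ^ 2) = (μ - V) ^ 2 / (V * μ ^ 2) := by
      field_simp
      ring
    have h2 : 0 ≤ (μ - V) ^ 2 / (V * μ ^ 2) := by positivity
    linarith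
  have hint : ∫ y in a..b, (2 / μ - (n - 2 * x * y + y ^ 2) / μ ^ 2) = (b - a) / μ := by
    have hF : ∀ y ∈ uIcc a b, HasDerivAt (fun y : ℝ => 2 / μ * y -
        (n * y - x * y ^ 2 + y ^ 3 / 3) / μ ^ 2)
        (2 / μ - (n - 2 * x * y + y ^ 2) / μ ^ 2) y := by
      intro y _
      have h1 : HasDerivAt (fun y : ℝ => 2 / μ * y) (2 / μ) y := by
        simpa using (hasDerivAt_id y).const_mul (2 / μ)
      have h2 : HasDerivAt (fun y : ℝ => n * y - x * y ^ 2 + y ^ 3 / 3)
          (n - 2 * x * y + y ^ 2) y := by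
        have a1 : HasDerivAt (fun y : ℝ => n * y) n y := by
          simpa using (hasDerivAt_id y).const_mul n
        have a2 : HasDerivAt (fun y : ℝ => x * y ^ 2) (x * (2 * y)) y := by
          simpa using (hasDerivAt_pow 2 y).const_mul x
        have a3 : HasDerivAt (fun y : ℝ => y ^ 3 / 3) (3 * y ^ 2 / 3) y := by
          simpa using (hasDerivAt_pow 3 y).div_const 3
        exact ((a1.sub a2).add a3).congr_deriv (by ring)
      exact h1.sub (h2.div_const _)
    rw [intervalIntegral.integral_eq_sub_of_hasDerivAt hF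
      (by apply Continuous.intervalIntegrable; fun_prop)]
    have hb : (b - a) / μ = (b - a) * μ / μ ^ 2 := by field_simp
    have e1 : 2 / μ * b - (n * b - x * b ^ 2 + b ^ 3 / 3) / μ ^ 2 -
        (2 / μ * a - (n * a - x * a ^ 2 + a ^ 3 / 3) / μ ^ 2) =
        (2 * μ * (b - a) - ((n * b - x * b ^ 2 + b ^ 3 / 3) - (n * a - x * a ^ 2 + a ^ 3 / 3)))
          / μ ^ 2 := by
      field_simp
      ring
    rw [e1, hb]
    congr 1
    have e2 : (n * b - x * b ^ 2 + b ^ 3 / 3) - (n * a - x * a ^ 2 + a ^ 3 / 3) =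
        (b - a) * μ := by rw [hμ]; ring
    rw [e2]
    ring
  rw [← hint]
  apply intervalIntegral.integral_mono_on hab.le
  · apply Continuous.intervalIntegrable; fun_prop
  · apply Continuous.intervalIntegrable
    exact continuous_const.div (by fun_prop) (fun y => (hV y).ne')
  · intro y _
    exact hle y

end VD
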